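import Mathlib
import Pool.Agent.Lib.MP_d1482d_nt.Final

/-!
# Abundancy values of integers with tame exponents are decidable

The definitions `Tame` and `Cls` are in `Pool/Agent/Lib/MP_d1482d_nt/Defs.lean`:

* `Tame L r m`: some entry `q` of the list `L` divides `m`, and `r` is not congruent to `1` modulo
  any earlier entry of `L` other than `2`;
* `Cls L E K n`: `n` is positive, all entries of `L` are primes, the exponent in `n` of each prime
  that is in `L` or is congruent to `1` modulo an entry of `L` other than `2` is at most `E`, and
  all but at most `K` of the prime divisors `r` of `n` are such that `Tame L r (e + 1)`,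
  where `e` is the exponent of `r` in `n`.

For instance `Cls [2, 3] 3 0` contains all positive integers not divisible by a fourth power
greater than `1`.
-/

set_option autoImplicit false

open Pool.AbDec

namespace Pool.Agent.Results.MP_d1482d_nt.TameClasses

/-- **Decidability of abundancy values on tame classes.** For each computable set `G` of natural
numbers there is an algorithm which, given natural numbers `a`, `b`, a list `L` of natural numbers
and bounds `E`, `K`, decides whether `σ(n) / n = a / b` for some `n ∈ G` in the class
`Cls (2 :: L) E K`. -/
theorem result (G : ℕ → Prop) (hG : ComputablePred G) :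
    ComputablePred (fun x : (ℕ × ℕ) × (List ℕ × ℕ × ℕ) =>
      ∃ n : ℕ, G n ∧ Cls (2 :: x.2.1) x.2.2.1 x.2.2.2 n ∧
        ((ArithmeticFunction.sigma 1 n : ℕ) : ℚ) / (n : ℚ) = (x.1.1 : ℚ) / (x.1.2 : ℚ)) :=
  main G hG

end Pool.Agent.Results.MP_d1482d_nt.TameClasses
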